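import Pool.Agent.Helper68.ES.St5

/-!
# Project ES (MP_cb927e_an), module PX3: the exceptional set of the crossing pairs
-/

set_option autoImplicit false

open MeasureTheory Set Filter Topology
open scoped ENNReal RealInnerProductSpace

namespace Pool.Agent.Helper96.ES

open Pool.Agent.Helper68.ES Pool.Agent.Helper68.EP Pool.Agent.Helper20.RG
open Pool.Agent.Helper20.RL (RQ Rich BM Fml Hit)
open Pool.Agent.Helper68.LM (Pl BB Bd Av HL ft fm DQ)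

/-! ### numbers -/

theorem px3_BM (f : Pl → ℝ) (hf : BB f) (m : ℤ) : BM (Gf f m) := by
  obtain ⟨hm, K, hK1, hK2⟩ := hf
  refine ⟨?_, ?_⟩
  · have h1 : MeasurableSet {x | (2 : ℝ) ^ m ≤ f x} := measurableSet_le measurable_const hm
    have h2 : MeasurableSet {x | f x < (2 : ℝ) ^ (m + 1)} := measurableSet_lt hm measurable_const
    exact h1.inter h2
  · refine (Metric.isBounded_closedBall (x := (0 : Pl)) (r := K)).subset ?_
    rintro x ⟨hx1, -⟩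
    rw [Metric.mem_closedBall, dist_zero_right]
    by_contra hcon
    push Not at hcon
    have h0 := hK2 x hcon
    rw [h0] at hx1
    have : (0 : ℝ) < (2 : ℝ) ^ m := by positivity
    linarith

theorem two_rpow_pos (x : ℝ) : (0 : ℝ) < (2 : ℝ) ^ x := Real.rpow_pos_of_pos (by norm_num) x

/-- powers beat polynomials -/
theorem tends (η : ℝ) (hη : 0 < η) (k : ℕ) :
    Tendsto (fun n : ℕ => (n : ℝ) ^ k * (2 : ℝ) ^ (-(η * n))) atTop (𝓝 0) := by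
  have h1 : |(2 : ℝ) ^ (-η)| < 1 := by
    rw [abs_of_pos (two_rpow_pos _)]
    exact Real.rpow_lt_one_of_one_lt_of_neg (by norm_num) (by linarith)
  have h2 := tendsto_pow_const_mul_const_pow_of_abs_lt_one k h1
  refine h2.congr fun n => ?_
  congr 1
  rw [← Real.rpow_natCast, ← Real.rpow_mul (by norm_num)]
  congr 1
  ring

theorem exists_start (κ η : ℝ) (hκ : 0 < κ) (hη : 0 < η) : ∃ u₀ : ℕ, 1 ≤ u₀ ∧ ∀ u : ℕ, u₀ ≤ u →
    2 ≤ κ * u ∧ (u : ℝ) ≤ (2 : ℝ) ^ (κ * u - 1) ∧ 8 ≤ η * u := by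
  have h1 : ∀ᶠ u : ℕ in atTop, 2 ≤ κ * (u : ℝ) :=
    (tendsto_natCast_atTop_atTop.const_mul_atTop hκ).eventually_ge_atTop 2
  have h3 : ∀ᶠ u : ℕ in atTop, 8 ≤ η * (u : ℝ) :=
    (tendsto_natCast_atTop_atTop.const_mul_atTop hη).eventually_ge_atTop 8
  have h2 : ∀ᶠ u : ℕ in atTop, (u : ℝ) ^ 1 * (2 : ℝ) ^ (-(κ * u)) < 1 / 2 :=
    (tends κ hκ 1).eventually_lt_const (by norm_num)
  obtain ⟨u₀, hu⟩ := eventually_atTop.1 (h1.and (h2.and h3))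
  refine ⟨max 1 u₀, le_max_left _ _, fun u hu' => ?_⟩
  obtain ⟨a, b, c⟩ := hu u (le_trans (le_max_right _ _) hu')
  refine ⟨a, ?_, c⟩
  have h4 : (2 : ℝ) ^ (κ * u - 1) = (2 : ℝ) ^ (κ * (u : ℝ)) / 2 := by
    rw [Real.rpow_sub (by norm_num), Real.rpow_one]
  have h5 : (2 : ℝ) ^ (-(κ * u)) * (2 : ℝ) ^ (κ * (u : ℝ)) = 1 := by
    rw [← Real.rpow_add (by norm_num), neg_add_cancel, Real.rpow_zero]
  have h6 := mul_le_mul_of_nonneg_right b.le (two_rpow_pos (κ * u)).le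
  rw [mul_assoc, h5, pow_one, mul_one] at h6
  rw [h4]
  linarith

theorem exists_poly (η : ℝ) (hη : 0 < η) : ∃ K : ℝ, 0 ≤ K ∧ ∀ w : ℕ,
    (2 * (w : ℝ) + 1) ^ 3 ≤ K * (2 : ℝ) ^ (η * w) := by
  obtain ⟨B, hB⟩ := (tends η hη 3).bddAbove_range
  have hB' : ∀ w : ℕ, (w : ℝ) ^ 3 * (2 : ℝ) ^ (-(η * w)) ≤ B := fun w => hB ⟨w, rfl⟩
  have hB0 : 0 ≤ B := by
    have := hB' 0
    simpa using this
  refine ⟨27 * (B + 1), by positivity, fun w => ?_⟩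
  have h5 : (2 : ℝ) ^ (-(η * w)) * (2 : ℝ) ^ (η * (w : ℝ)) = 1 := by
    rw [← Real.rpow_add (by norm_num), neg_add_cancel, Real.rpow_zero]
  have h1 : (1 : ℝ) ≤ (2 : ℝ) ^ (η * (w : ℝ)) := Real.one_le_rpow (by norm_num) (by positivity)
  have h2 : (w : ℝ) ^ 3 ≤ B * (2 : ℝ) ^ (η * (w : ℝ)) := by
    have := mul_le_mul_of_nonneg_right (hB' w) (two_rpow_pos (η * w)).le
    rwa [mul_assoc, h5, mul_one] at this
  have h3 : (2 * (w : ℝ) + 1) ^ 3 ≤ 27 * ((w : ℝ) ^ 3 + 1) := by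
    rcases Nat.eq_zero_or_pos w with h | h
    · subst h; norm_num
    · have h4 : (1 : ℝ) ≤ w := by exact_mod_cast h
      have h6 : (2 * (w : ℝ) + 1) ^ 3 ≤ (3 * (w : ℝ)) ^ 3 :=
        pow_le_pow_left₀ (by positivity) (by linarith) 3
      have h7 : (3 * (w : ℝ)) ^ 3 = 27 * (w : ℝ) ^ 3 := by ring
      linarith
  nlinarith

/-- what a type gives for one class -/
theorem cfg_facts (P : Par) {e : ℝ} {R Y β : ℤ} {u q i : ℕ}
    (hC : Cfg P.p e R Y β u q i) (h1 : 2 ≤ (P.p - 1 - e) * u)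
    (h2 : (u : ℝ) ≤ (2 : ℝ) ^ ((P.p - 1 - e) * u - 1)) (h3 : 8 ≤ (P.s - 1 - e) * u) :
    1 ≤ q ∧ u ≤ 2 ^ q ∧ 4 * DD P u < th i := by
  have hs := P.hs
  have hsp := P.hsp
  have hadm := hC.adm
  unfold sz at hadm
  have hR := abs_nonneg (R : ℝ)
  have hY := abs_nonneg (Y : ℝ)
  have hβ := abs_nonneg (β : ℝ)
  have hq : (q : ℝ) = (⌊(P.p - 1) * u⌋ : ℝ) + R := by exact_mod_cast congrArg (Int.cast (R := ℝ)) hC.hq
  have hi : (i : ℝ) = (⌊(u : ℝ) / P.p⌋ : ℝ) + Y := by exact_mod_cast congrArg (Int.cast (R := ℝ)) hC.hi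
  have hq2 : (P.p - 1 - e) * u - 1 ≤ q := by
    have := Int.sub_one_lt_floor ((P.p - 1) * (u : ℝ))
    have h4 := neg_abs_le (R : ℝ)
    rw [hq]
    linarith
  refine ⟨?_, ?_, ?_⟩
  · have : (1 : ℝ) ≤ q := by linarith
    exact_mod_cast this
  · have h4 : (u : ℝ) ≤ (2 : ℝ) ^ (q : ℝ) :=
      h2.trans (Real.rpow_le_rpow_of_exponent_le (by norm_num) hq2)
    rw [Real.rpow_natCast] at h4
    exact_mod_cast h4
  · have hi2 : (i : ℝ) ≤ (1 + e) * u := by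
      have h4 := Int.floor_le ((u : ℝ) / P.p)
      have h5 : (u : ℝ) / P.p ≤ u := div_le_self (Nat.cast_nonneg u) (by linarith)
      have h6 := le_abs_self (Y : ℝ)
      rw [hi]
      linarith
    unfold DD th
    have h4 : (2 : ℝ) ^ (-(i : ℤ)) = (2 : ℝ) ^ (-(i : ℝ)) := by
      rw [← Real.rpow_intCast]
      push_cast
      rfl
    rw [h4]
    have h5 : (2 : ℝ) ^ (8 : ℝ) * (2 : ℝ) ^ (-(P.s * u)) ≤ (2 : ℝ) ^ (-(i : ℝ)) := by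
      rw [← Real.rpow_add (by norm_num)]
      exact Real.rpow_le_rpow_of_exponent_le (by norm_num) (by linarith)
    have h6 : (2 : ℝ) ^ (8 : ℝ) = 256 := by norm_num
    rw [h6] at h5
    have h7 := two_rpow_pos (-(P.s * u))
    rw [lt_div_iff₀ (by norm_num)]
    linarith

theorem mb_th (i : ℕ) (β : ℤ) : mb i β * th i = (2 : ℝ) ^ (β : ℝ) / 36 := by
  unfold mb th
  rw [mul_div_assoc', ← zpow_add₀ (by norm_num), Real.rpow_intCast]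
  congr 2
  ring

theorem mb_pos (i : ℕ) (β : ℤ) : 0 < mb i β := by
  unfold mb
  positivity

/-- the constant of the module PX2 -/
theorem num_bound (P : Par) {e : ℝ} {R Y β : ℤ} {w u q₁ i₁ i₂ : ℕ} (hwu : w ≤ u)
    (h1 : Cfg P.p e R Y β w q₁ i₁) :
    16 * 10 ^ 6 * 2 ^ w * 2 ^ u * 2 ^ q₁ * DD P u / (mb i₁ β * th i₁ * (mb i₂ β * th i₂)) ≤
      16 * 10 ^ 6 * 1296 * ((2 : ℝ) ^ ((P.p + 2 * e - (P.s - 1)) * w) *
        ((2 : ℝ) ^ (-(P.s - 1))) ^ (u - w)) := by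
  have hadm := h1.adm
  unfold sz at hadm
  have hR := abs_nonneg (R : ℝ)
  have hY := abs_nonneg (Y : ℝ)
  have hβ := abs_nonneg (β : ℝ)
  have hR1 := le_abs_self (R : ℝ)
  have hβ1 := neg_abs_le (β : ℝ)
  have hq : (q₁ : ℝ) = (⌊(P.p - 1) * w⌋ : ℝ) + R := by
    exact_mod_cast congrArg (Int.cast (R := ℝ)) h1.hq
  have hq2 := Int.floor_le ((P.p - 1) * (w : ℝ))
  rw [mb_th, mb_th]
  unfold DD
  have e1 : (16 * 10 ^ 6 * 2 ^ w * 2 ^ u * 2 ^ q₁ * (2 : ℝ) ^ (-(P.s * u)) /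
      ((2 : ℝ) ^ (β : ℝ) / 36 * ((2 : ℝ) ^ (β : ℝ) / 36)) : ℝ) =
      16 * 10 ^ 6 * 1296 * (2 : ℝ) ^ ((w : ℝ) + u + q₁ - P.s * u - 2 * β) := by
    have h2 : (0 : ℝ) < 2 := by norm_num
    have e2 : (2 : ℝ) ^ ((w : ℝ) + u + q₁ - P.s * u - 2 * β) =
        2 ^ w * 2 ^ u * 2 ^ q₁ * (2 : ℝ) ^ (-(P.s * u)) /
          ((2 : ℝ) ^ (β : ℝ) * (2 : ℝ) ^ (β : ℝ)) := by
      rw [← Real.rpow_natCast 2 w, ← Real.rpow_natCast 2 u, ← Real.rpow_natCast 2 q₁,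
        ← Real.rpow_add h2, ← Real.rpow_add h2, ← Real.rpow_add h2, ← Real.rpow_add h2,
        ← Real.rpow_sub h2]
      congr 1
      ring
    rw [e2]
    have h3 := two_rpow_pos (β : ℝ)
    field_simp
    ring
  have e3 : (2 : ℝ) ^ ((P.p + 2 * e - (P.s - 1)) * w) * ((2 : ℝ) ^ (-(P.s - 1))) ^ (u - w) =
      (2 : ℝ) ^ ((P.p + 2 * e) * w - (P.s - 1) * u) := by
    rw [← Real.rpow_natCast, ← Real.rpow_mul (by norm_num), ← Real.rpow_add (by norm_num)]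
    congr 1
    rw [Nat.cast_sub hwu]
    ring
  rw [e1, e3]
  refine mul_le_mul_of_nonneg_left ?_ (by norm_num)
  refine Real.rpow_le_rpow_of_exponent_le (by norm_num) ?_
  rw [hq]
  nlinarith

/-- the types of class `w` -/
theorem cfg_box {p e : ℝ} {R Y β : ℤ} {w q i : ℕ} (he : e ≤ 1) (h : Cfg p e R Y β w q i) :
    |R| ≤ (w : ℤ) ∧ |Y| ≤ (w : ℤ) ∧ |β| ≤ (w : ℤ) := by
  have hadm := h.adm
  unfold sz at hadm
  have hR := abs_nonneg (R : ℝ)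
  have hY := abs_nonneg (Y : ℝ)
  have hβ := abs_nonneg (β : ℝ)
  have hw : e * (w : ℝ) ≤ w := by
    have : (0 : ℝ) ≤ w := Nat.cast_nonneg w
    nlinarith
  refine ⟨?_, ?_, ?_⟩
  · have : |(R : ℝ)| ≤ w := by linarith
    exact_mod_cast this
  · have : |(Y : ℝ)| ≤ w := by linarith
    exact_mod_cast this
  · have : |(β : ℝ)| ≤ w := by linarith
    exact_mod_cast this

/-- counting the integers of absolute value at most `w` -/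
noncomputable def cb (w : ℕ) (R : ℤ) : ℝ≥0∞ := if |R| ≤ (w : ℤ) then 1 else 0

theorem tsum_cb (w : ℕ) : ∑' R : ℤ, cb w R = ENNReal.ofReal (2 * w + 1) := by
  have h1 : ∀ R ∉ Finset.Icc (-(w : ℤ)) w, cb w R = 0 := by
    intro R hR
    unfold cb
    rw [if_neg]
    rw [Finset.mem_Icc, ← abs_le] at hR
    exact hR
  rw [tsum_eq_sum h1]
  have h2 : ∀ R ∈ Finset.Icc (-(w : ℤ)) w, cb w R = 1 := by
    intro R hR
    unfold cb
    rw [if_pos]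
    rw [Finset.mem_Icc, ← abs_le] at hR
    exact hR
  rw [Finset.sum_congr rfl h2, Finset.sum_const, Int.card_Icc, nsmul_eq_mul, mul_one]
  have h3 : ((w : ℤ) + 1 - -(w : ℤ)).toNat = 2 * w + 1 := by lia
  rw [h3]
  have h4 : (2 * (w : ℝ) + 1) = ((2 * w + 1 : ℕ) : ℝ) := by push_cast; ring
  rw [h4, ENNReal.ofReal_natCast]

/-! ### the set of one type and one pair of classes -/

/-- the exceptional set for the classes `w`, `w + v` and the type `(R, Y, β)` -/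
def Tset (P : Par) (e : ℝ) (Δ : Dat) (ct : ℕ → ℕ → Pl) (f : Pl → ℝ) (u₀ : ℕ) (l : ℤ) (w v : ℕ)
    (R Y β : ℤ) : Set Pl :=
  {x | ∃ (k : ℤ) (q₁ q₂ i₁ i₂ : ℕ), u₀ ≤ w ∧ Cfg P.p e R Y β w q₁ i₁ ∧
    Cfg P.p e R Y β (w + v) q₂ i₂ ∧ mb i₁ β * mb i₂ β / 16 ≤
      ((Fp P Δ ct w (w + v) q₁ q₂ i₁ i₂ k (Gf f (l + (w : ℤ))) (Gf f (l + ((w + v : ℕ) : ℤ))) x).ncard : ℝ)}

theorem cfg_unique {p e : ℝ} {R Y β : ℤ} {w q i q' i' : ℕ} (h : Cfg p e R Y β w q i)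
    (h' : Cfg p e R Y β w q' i') : q = q' ∧ i = i' := by
  constructor
  · exact_mod_cast h.hq.trans h'.hq.symm
  · exact_mod_cast h.hi.trans h'.hi.symm

theorem Tset_le (hPX2 : StPX2) (P : Par) {e : ℝ} (he1 : e ≤ 1) {u₀ : ℕ}
    (hu₀ : 1 ≤ u₀)
    (hu : ∀ u : ℕ, u₀ ≤ u → 2 ≤ (P.p - 1 - e) * u ∧
      (u : ℝ) ≤ (2 : ℝ) ^ ((P.p - 1 - e) * u - 1) ∧ 8 ≤ (P.s - 1 - e) * u)
    (Δ : Dat) (ct : ℕ → ℕ → Pl) (f : Pl → ℝ) (hS : Sy P Δ) (hf : BB f) (l : ℤ) (w v : ℕ)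
    (R Y β : ℤ) : volume (Tset P e Δ ct f u₀ l w v R Y β) ≤
      cb w R * (cb w Y * (cb w β * (ENNReal.ofReal (((2 : ℝ) ^ (-(P.s - 1))) ^ v) *
        (ENNReal.ofReal (16 * 10 ^ 6 * 1296 * (2 : ℝ) ^ ((P.p + 2 * e - (P.s - 1)) * w)) *
          volume (Gf f (l + (w : ℤ))))))) := by
  by_cases hne : ∃ q₁ q₂ i₁ i₂ : ℕ, u₀ ≤ w ∧ Cfg P.p e R Y β w q₁ i₁ ∧
      Cfg P.p e R Y β (w + v) q₂ i₂
  · obtain ⟨q₁, q₂, i₁, i₂, hw, h1, h2⟩ := hne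
    obtain ⟨b1, b2, b3⟩ := cfg_box he1 h1
    have c1 : cb w R = 1 := if_pos b1
    have c2 : cb w Y = 1 := if_pos b2
    have c3 : cb w β = 1 := if_pos b3
    rw [c1, c2, c3, one_mul, one_mul, one_mul]
    obtain ⟨a1, a2, a3⟩ := hu w hw
    obtain ⟨a4, a5, a6⟩ := hu (w + v) (by lia)
    obtain ⟨f1, -, -⟩ := cfg_facts P h1 a1 a2 a3
    obtain ⟨f2, f3, f4⟩ := cfg_facts P h2 a4 a5 a6
    have hsub : Tset P e Δ ct f u₀ l w v R Y β ⊆ ⋃ k : ℤ, {x | mb i₁ β * mb i₂ β / 16 ≤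
        ((Fp P Δ ct w (w + v) q₁ q₂ i₁ i₂ k (Gf f (l + (w : ℤ)))
          (Gf f (l + ((w + v : ℕ) : ℤ))) x).ncard : ℝ)} := by
      rintro x ⟨k, q₁', q₂', i₁', i₂', -, h1', h2', h3⟩
      obtain ⟨rfl, rfl⟩ := cfg_unique h1 h1'
      obtain ⟨rfl, rfl⟩ := cfg_unique h2 h2'
      exact mem_iUnion.2 ⟨k, h3⟩
    have hmain := hPX2 P Δ ct w (w + v) q₁ q₂ i₁ i₂ (mb i₁ β) (mb i₂ β) (Gf f (l + (w : ℤ)))
      (Gf f (l + ((w + v : ℕ) : ℤ))) hS (hu₀.trans hw) (Nat.le_add_right w v) (px3_BM f hf _)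
      (px3_BM f hf _) f4 f1 f2 f3 (mb_pos _ _) (mb_pos _ _)
    refine ((measure_mono hsub).trans (measure_iUnion_le _)).trans (hmain.trans ?_)
    rw [← mul_assoc (ENNReal.ofReal (((2 : ℝ) ^ (-(P.s - 1))) ^ v)),
      ← ENNReal.ofReal_mul (by positivity)]
    refine mul_le_mul_left (ENNReal.ofReal_le_ofReal ?_) _
    refine (num_bound P (Nat.le_add_right w v) h1).trans (le_of_eq ?_)
    rw [Nat.add_sub_cancel_left]
    ring
  · have : Tset P e Δ ct f u₀ l w v R Y β = ∅ := by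
      rw [eq_empty_iff_forall_notMem]
      rintro x ⟨k, q₁, q₂, i₁, i₂, h0, h1, h2, -⟩
      exact hne ⟨q₁, q₂, i₁, i₂, h0, h1, h2⟩
    rw [this, measure_empty]
    exact zero_le

theorem tsum_geo (r : ℝ) (h0 : 0 ≤ r) (h1 : r < 1) :
    ∑' v : ℕ, ENNReal.ofReal (r ^ v) = ENNReal.ofReal (1 / (1 - r)) := by
  rw [← ENNReal.ofReal_tsum_of_nonneg (fun v => pow_nonneg h0 v) (summable_geometric_of_lt_one h0 h1),
    tsum_geometric_of_lt_one h0 h1, one_div]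

theorem level_le (hPX2 : StPX2) (P : Par) {e : ℝ} (he1 : e ≤ 1) {u₀ : ℕ}
    (hu₀ : 1 ≤ u₀)
    (hu : ∀ u : ℕ, u₀ ≤ u → 2 ≤ (P.p - 1 - e) * u ∧
      (u : ℝ) ≤ (2 : ℝ) ^ ((P.p - 1 - e) * u - 1) ∧ 8 ≤ (P.s - 1 - e) * u)
    (Δ : Dat) (ct : ℕ → ℕ → Pl) (f : Pl → ℝ) (hS : Sy P Δ) (hf : BB f) (l : ℤ) :
    volume {x | ∃ (k R Y β : ℤ) (w u q₁ q₂ i₁ i₂ : ℕ),
      u₀ ≤ w ∧ w ≤ u ∧ Cfg P.p e R Y β w q₁ i₁ ∧ Cfg P.p e R Y β u q₂ i₂ ∧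
      mb i₁ β * mb i₂ β / 16 ≤
        ((Fp P Δ ct w u q₁ q₂ i₁ i₂ k (Gf f (l + (w : ℤ))) (Gf f (l + (u : ℤ))) x).ncard : ℝ)} ≤
      ENNReal.ofReal (1 / (1 - (2 : ℝ) ^ (-(P.s - 1)))) * ∑' w : ℕ,
        ENNReal.ofReal ((2 * w + 1) ^ 3 *
          (16 * 10 ^ 6 * 1296 * (2 : ℝ) ^ ((P.p + 2 * e - (P.s - 1)) * w))) *
          volume (Gf f (l + (w : ℤ))) := by
  have hs := P.hs
  have hr0 : (0 : ℝ) ≤ (2 : ℝ) ^ (-(P.s - 1)) := (two_rpow_pos _).le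
  have hr1 : (2 : ℝ) ^ (-(P.s - 1)) < 1 :=
    Real.rpow_lt_one_of_one_lt_of_neg (by norm_num) (by linarith)
  have hsub : {x | ∃ (k R Y β : ℤ) (w u q₁ q₂ i₁ i₂ : ℕ),
      u₀ ≤ w ∧ w ≤ u ∧ Cfg P.p e R Y β w q₁ i₁ ∧ Cfg P.p e R Y β u q₂ i₂ ∧
      mb i₁ β * mb i₂ β / 16 ≤
        ((Fp P Δ ct w u q₁ q₂ i₁ i₂ k (Gf f (l + (w : ℤ))) (Gf f (l + (u : ℤ))) x).ncard : ℝ)} ⊆
      ⋃ w : ℕ, ⋃ v : ℕ, ⋃ R : ℤ, ⋃ Y : ℤ, ⋃ β : ℤ, Tset P e Δ ct f u₀ l w v R Y β := by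
    rintro x ⟨k, R, Y, β, w, u, q₁, q₂, i₁, i₂, h0, h1, h2, h3, h4⟩
    obtain ⟨v, rfl⟩ := Nat.exists_eq_add_of_le h1
    refine mem_iUnion.2 ⟨w, mem_iUnion.2 ⟨v, mem_iUnion.2 ⟨R, mem_iUnion.2 ⟨Y, mem_iUnion.2
      ⟨β, k, q₁, q₂, i₁, i₂, h0, h2, h3, h4⟩⟩⟩⟩⟩
  refine (measure_mono hsub).trans ((measure_iUnion_le _).trans ?_)
  rw [← ENNReal.tsum_mul_left]
  refine ENNReal.tsum_le_tsum fun w => ?_
  set V : ℝ≥0∞ := ENNReal.ofReal (16 * 10 ^ 6 * 1296 * (2 : ℝ) ^ ((P.p + 2 * e - (P.s - 1)) * w)) *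
    volume (Gf f (l + (w : ℤ))) with hV
  have hstep : ∀ v : ℕ, volume (⋃ R : ℤ, ⋃ Y : ℤ, ⋃ β : ℤ, Tset P e Δ ct f u₀ l w v R Y β) ≤
      ENNReal.ofReal (2 * w + 1) * (ENNReal.ofReal (2 * w + 1) * (ENNReal.ofReal (2 * w + 1) *
        (ENNReal.ofReal (((2 : ℝ) ^ (-(P.s - 1))) ^ v) * V))) := by
    intro v
    set Z : ℝ≥0∞ := ENNReal.ofReal (((2 : ℝ) ^ (-(P.s - 1))) ^ v) * V with hZ
    refine (measure_iUnion_le _).trans ?_
    calc ∑' R : ℤ, volume (⋃ Y : ℤ, ⋃ β : ℤ, Tset P e Δ ct f u₀ l w v R Y β)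
        ≤ ∑' R : ℤ, cb w R * (ENNReal.ofReal (2 * w + 1) * (ENNReal.ofReal (2 * w + 1) * Z)) := by
          refine ENNReal.tsum_le_tsum fun R => (measure_iUnion_le _).trans ?_
          calc ∑' Y : ℤ, volume (⋃ β : ℤ, Tset P e Δ ct f u₀ l w v R Y β)
              ≤ ∑' Y : ℤ, cb w Y * (cb w R * (ENNReal.ofReal (2 * w + 1) * Z)) := by
                refine ENNReal.tsum_le_tsum fun Y => (measure_iUnion_le _).trans ?_
                calc ∑' β : ℤ, volume (Tset P e Δ ct f u₀ l w v R Y β)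
                    ≤ ∑' β : ℤ, cb w β * (cb w Y * (cb w R * Z)) := by
                      refine ENNReal.tsum_le_tsum fun β => ?_
                      refine (Tset_le hPX2 P he1 hu₀ hu Δ ct f hS hf l w v R Y β).trans
                        (le_of_eq ?_)
                      ring
                  _ = cb w Y * (cb w R * (ENNReal.ofReal (2 * w + 1) * Z)) := by
                      rw [ENNReal.tsum_mul_right, tsum_cb]
                      ring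
            _ = cb w R * (ENNReal.ofReal (2 * w + 1) * (ENNReal.ofReal (2 * w + 1) * Z)) := by
                rw [ENNReal.tsum_mul_right, tsum_cb]
                ring
      _ = ENNReal.ofReal (2 * w + 1) * (ENNReal.ofReal (2 * w + 1) *
            (ENNReal.ofReal (2 * w + 1) * Z)) := by
          rw [ENNReal.tsum_mul_right, tsum_cb]
  calc volume (⋃ v : ℕ, ⋃ R : ℤ, ⋃ Y : ℤ, ⋃ β : ℤ, Tset P e Δ ct f u₀ l w v R Y β)
      ≤ ∑' v : ℕ, volume (⋃ R : ℤ, ⋃ Y : ℤ, ⋃ β : ℤ, Tset P e Δ ct f u₀ l w v R Y β) :=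
        measure_iUnion_le _
    _ ≤ ∑' v : ℕ, ENNReal.ofReal (((2 : ℝ) ^ (-(P.s - 1))) ^ v) *
          (ENNReal.ofReal (2 * w + 1) * (ENNReal.ofReal (2 * w + 1) *
            (ENNReal.ofReal (2 * w + 1) * V))) := by
        refine ENNReal.tsum_le_tsum fun v => (hstep v).trans (le_of_eq ?_)
        ring
    _ = ENNReal.ofReal (1 / (1 - (2 : ℝ) ^ (-(P.s - 1)))) *
          (ENNReal.ofReal ((2 * w + 1) ^ 3 *
            (16 * 10 ^ 6 * 1296 * (2 : ℝ) ^ ((P.p + 2 * e - (P.s - 1)) * w))) *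
            volume (Gf f (l + (w : ℤ)))) := by
        rw [ENNReal.tsum_mul_right, tsum_geo _ hr0 hr1, hV,
          ENNReal.ofReal_mul (p := (2 * (w : ℝ) + 1) ^ 3) (by positivity),
          ENNReal.ofReal_pow (by positivity)]
        ring

theorem hPX3 (hPX2 : StPX2) (hLSQ : Pool.Agent.Helper61.EPL.StLSQ) :
    Pool.Agent.Helper68.ES.StPX3 := by
  intro P e he h8
  have hs := P.hs
  have hsp := P.hsp
  have hp := P.hp
  obtain ⟨u₀, hu₀, hu⟩ := exists_start (P.p - 1 - e) (P.s - 1 - e) (by linarith) (by linarith)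
  obtain ⟨K, hK0, hK⟩ := exists_poly ((P.s - 1) / 2) (by linarith)
  obtain ⟨_, _, hL⟩ := hLSQ P.p (by linarith) hp
  have hε : 0 < (P.s - 1) / 4 := by linarith
  set c₁ : ℝ := 1 / (1 - (2 : ℝ) ^ (-(P.s - 1))) with hc₁
  set c₂ : ℝ := 1 / (1 - (2 : ℝ) ^ (-((P.s - 1) / 4))) with hc₂
  have hr1 : (2 : ℝ) ^ (-(P.s - 1)) < 1 :=
    Real.rpow_lt_one_of_one_lt_of_neg (by norm_num) (by linarith)
  have hr2 : (2 : ℝ) ^ (-((P.s - 1) / 4)) < 1 :=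
    Real.rpow_lt_one_of_one_lt_of_neg (by norm_num) (by linarith)
  have hc₁0 : 0 ≤ c₁ := by
    rw [hc₁]
    exact div_nonneg zero_le_one (by linarith)
  have hc₂0 : 0 ≤ c₂ := by
    rw [hc₂]
    exact div_nonneg zero_le_one (by linarith)
  set c₃ : ℝ := c₁ * (K * (16 * 10 ^ 6 * 1296)) with hc₃
  have hc₃0 : 0 ≤ c₃ := by positivity
  refine ⟨u₀, max 1 (c₃ * c₂), hu₀, le_max_left _ _, fun Δ ct f hS hf hf0 => ?_⟩
  obtain ⟨-, -, -, hL4⟩ := hL f hf.1 hf0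
  have hL5 := hL4 ((P.s - 1) / 4) hε
  have hlev : ∀ l : ℤ, volume {x | ∃ (k R Y β : ℤ) (w u q₁ q₂ i₁ i₂ : ℕ),
      u₀ ≤ w ∧ w ≤ u ∧ Cfg P.p e R Y β w q₁ i₁ ∧ Cfg P.p e R Y β u q₂ i₂ ∧
      mb i₁ β * mb i₂ β / 16 ≤
        ((Fp P Δ ct w u q₁ q₂ i₁ i₂ k (Gf f (l + (w : ℤ))) (Gf f (l + (u : ℤ))) x).ncard : ℝ)} ≤
      ENNReal.ofReal c₃ * ∑' w : ℕ, ENNReal.ofReal ((2 : ℝ) ^ ((P.p - (P.s - 1) / 4) * w)) *
        volume (Gf f (l + (w : ℤ))) := by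
    intro l
    refine (level_le hPX2 P (by linarith) hu₀ hu Δ ct f hS hf l).trans ?_
    rw [hc₃, ENNReal.ofReal_mul hc₁0, mul_assoc (ENNReal.ofReal c₁)]
    refine mul_le_mul' le_rfl ?_
    rw [← ENNReal.tsum_mul_left]
    refine ENNReal.tsum_le_tsum fun w => ?_
    rw [← mul_assoc (ENNReal.ofReal (K * (16 * 10 ^ 6 * 1296))),
      ← ENNReal.ofReal_mul (by positivity)]
    refine mul_le_mul_left (ENNReal.ofReal_le_ofReal ?_) _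
    have e1 : (2 : ℝ) ^ ((P.p - (P.s - 1) / 4) * w) =
        (2 : ℝ) ^ ((P.s - 1) / 2 * w) * (2 : ℝ) ^ ((P.p + (P.s - 1) / 4 - (P.s - 1)) * w) := by
      rw [← Real.rpow_add (by norm_num)]
      congr 1
      ring
    have e2 : (2 : ℝ) ^ ((P.p + 2 * e - (P.s - 1)) * w) ≤
        (2 : ℝ) ^ ((P.p + (P.s - 1) / 4 - (P.s - 1)) * w) := by
      refine Real.rpow_le_rpow_of_exponent_le (by norm_num) ?_
      exact mul_le_mul_of_nonneg_right (by linarith) (Nat.cast_nonneg w)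
    have h1 := hK w
    calc (2 * (w : ℝ) + 1) ^ 3 * (16 * 10 ^ 6 * 1296 *
          (2 : ℝ) ^ ((P.p + 2 * e - (P.s - 1)) * w))
        ≤ (K * (2 : ℝ) ^ ((P.s - 1) / 2 * w)) * (16 * 10 ^ 6 * 1296 *
          (2 : ℝ) ^ ((P.p + (P.s - 1) / 4 - (P.s - 1)) * w)) := by
          refine mul_le_mul h1 (mul_le_mul_of_nonneg_left e2 (by norm_num)) ?_ ?_
          · have := two_rpow_pos ((P.p + 2 * e - (P.s - 1)) * w)
            positivity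
          · have := two_rpow_pos ((P.s - 1) / 2 * w)
            positivity
      _ = K * (16 * 10 ^ 6 * 1296) * (2 : ℝ) ^ ((P.p - (P.s - 1) / 4) * w) := by
          rw [e1]
          ring
  calc ∑' l : ℤ, ENNReal.ofReal ((2 : ℝ) ^ (P.p * l)) * volume {x | ∃ (k R Y β : ℤ)
      (w u q₁ q₂ i₁ i₂ : ℕ),
      u₀ ≤ w ∧ w ≤ u ∧ Cfg P.p e R Y β w q₁ i₁ ∧ Cfg P.p e R Y β u q₂ i₂ ∧
      mb i₁ β * mb i₂ β / 16 ≤
        ((Fp P Δ ct w u q₁ q₂ i₁ i₂ k (Gf f (l + (w : ℤ))) (Gf f (l + (u : ℤ))) x).ncard : ℝ)}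
      ≤ ∑' l : ℤ, ENNReal.ofReal c₃ * (ENNReal.ofReal ((2 : ℝ) ^ (P.p * l)) *
          ∑' w : ℕ, ENNReal.ofReal ((2 : ℝ) ^ ((P.p - (P.s - 1) / 4) * w)) *
            volume (Gf f (l + (w : ℤ)))) := by
        refine ENNReal.tsum_le_tsum fun l => ?_
        rw [mul_left_comm]
        exact mul_le_mul_right (hlev l) _
    _ = ENNReal.ofReal c₃ * ∑' l : ℤ, ENNReal.ofReal ((2 : ℝ) ^ (P.p * l)) *
          ∑' w : ℕ, ENNReal.ofReal ((2 : ℝ) ^ ((P.p - (P.s - 1) / 4) * w)) *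
            volume (Gf f (l + (w : ℤ))) := ENNReal.tsum_mul_left
    _ ≤ ENNReal.ofReal c₃ * (ENNReal.ofReal c₂ * ∫⁻ x, ENNReal.ofReal (f x) ^ P.p) :=
        mul_le_mul_right hL5 _
    _ = ENNReal.ofReal (c₃ * c₂) * ∫⁻ x, ENNReal.ofReal (f x) ^ P.p := by
        rw [ENNReal.ofReal_mul hc₃0, mul_assoc]
    _ ≤ ENNReal.ofReal (max 1 (c₃ * c₂)) * ∫⁻ x, ENNReal.ofReal (f x) ^ P.p :=
        mul_le_mul_left (ENNReal.ofReal_le_ofReal (le_max_right _ _)) _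

end Pool.Agent.Helper96.ES
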